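import Pool.Agent.Zk8.KL.Main

/-!
# Algebraic combinations of the Kunneth components: bounded or all

Let `W` be a Weil cohomology theory with coefficient field `K`, on a class of smooth proper varieties
closed under products (for instance all smooth projective varieties). For a variety `Y` let `κ(Y)` be
the dimension of the space of the combinations `∑ f(i) π^i` of the Kunneth components of the diagonal
of `Y`, with coefficients in `K`, which are algebraic. The standard conjecture `C(Y)` says that all
combinations are algebraic: `κ(Y)` is the number of the nonzero components. Let `X` be a variety of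
dimension `d`, for instance projective, for which the classes of degree `2 s`, `s ≤ d`, contain
numerically nontrivial algebraic classes.

**Theorem.** If `C(X)` is true, then `κ(X^n) ≥ d n + 1` for all `n`. If `C(X)` is false, then
`κ(X^n) ≤ 3 d - 1` for ALL `n ≥ 1`, and there are positive `p, q ≤ 3 d - 1`, which depend only on `X`,
such that the coefficients of every algebraic combination `∑ f(i) π^i` of the Kunneth components of
every power `X^n` are periodic in the middle range `8 d ≤ i ≤ 2 d n - 8 d`: `f(i + 2 p) = f(i)` for the
even `i` and `f(i + 2 q) = f(i)` for the odd `i` (if `X` has cohomology in odd degrees).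

So `C(X)` is true if for one `n` one algebraic combination of the Kunneth components of `X^n` is not
periodic in this sense, or takes `3 d` different values at the degrees of the nonzero components. And
the conjecture `C` for all varieties is equivalent to the lower bound `κ(Y) ≥ g(dim Y)` for all `Y`, for
each function `g` with `g(y) ≤ y + 1` which tends to infinity (however slowly).

The proof. The functions `f` such that `∑ f(i) π^i` is algebraic on `X` form an algebra. So if `C(X)`
is false there are `k < l` with `H^k(X)`, `H^l(X) ≠ 0` and `f(k) = f(l)` for all of them. Let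
`∑ f(i) π^i` be algebraic on `X^n`. The contraction with algebraic classes on `n - 1` factors shows
that `f(k + 2 s) = f(l + 2 s)` for `s ≤ d (n - 1)`, and the contraction with the diagonal of one more
factor that `∑_j (-1)^j b_j(X) (f(l + j + 2 s) - f(k + j + 2 s)) = 0` for `s ≤ d (n - 2)`. The terms
with even `j` vanish. If `j` is the largest odd degree of `X`, this determines `f(l + j + 2 s)` by the
values of `f` at smaller degrees. So `f` is determined by its values at `3 d - 1` degrees. As the
functions form an algebra, among any `3 d` degrees of `X^3` or `X^4` two are not separated; by the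
contraction with algebraic classes their distance is a period in the middle range for all powers.
-/

set_option autoImplicit false

open CategoryTheory AlgebraicGeometry Filter

universe u v

namespace Pool.Agent.Results.MP_a60482_ag.BoundedOrAll

open Pool.Agent.H914 VarClass Obj WeilCohomology Pool.Agent.N103.OC Pool.Agent.Zk8.KL

/-- **The algebraic combinations of the Kunneth components of the powers of a variety: bounded or
all.** -/
theorem result {k : Type u} [Field k] {𝒱 : VarClass k} {ops : CycleOps 𝒱}
    (W : WeilCohomology.{u, v} ops) :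
    (∀ Y : 𝒱.Obj, algDim W Y ≤ (degrees W Y).card ∧
      (AllSpan W Y ↔ algDim W Y = (degrees W Y).card)) ∧
    (∀ X : 𝒱.Obj, DualCycles ops X →
      (AllSpan W X → ∀ n ≥ 1, n * X.dim + 1 ≤ algDim W (pw X n)) ∧
      (¬ AllSpan W X → (∀ n ≥ 1, algDim W (pw X n) ≤ 3 * X.dim - 1) ∧ PeriodicPowers W X) ∧
      (AllSpan W X ↔ ∃ n ≥ 1, TakesValues W (pw X n) (3 * X.dim))) ∧
    ((∀ X : 𝒱.Obj, DualCycles ops X) → ∀ g : ℕ → ℕ, (∀ y, g y ≤ y + 1) →
      Tendsto g atTop atTop → ((∀ Y : 𝒱.Obj, AllSpan W Y) ↔
        ∀ Y : 𝒱.Obj, g Y.dim ≤ algDim W Y)) := by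
  have h2 : ∀ X : 𝒱.Obj, DualCycles ops X → AllSpan W X → ∀ n ≥ 1,
      n * X.dim + 1 ≤ algDim W (pw X n) := by
    intro X hX hC n hn
    obtain ⟨m, rfl⟩ := Nat.exists_eq_add_of_le' hn
    exact (lower (pairs_of_dual hX) m).trans (card_degrees_le (allSpan_pw hC m))
  have h3 : ∀ X : 𝒱.Obj, DualCycles ops X → ¬ AllSpan W X → ∀ n ≥ 1,
      1 ≤ X.dim ∧ algDim W (pw X n) ≤ 3 * X.dim - 1 := by
    intro X hX hC n hn
    obtain ⟨m, rfl⟩ := Nat.exists_eq_add_of_le' hn
    exact bound (pairs_of_dual hX) hC m
  refine ⟨fun Y => ⟨algDim_le_degrees, allSpan_iff_card⟩, fun X hX => ⟨h2 X hX, fun hC =>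
    ⟨fun n hn => (h3 X hX hC n hn).2, ?_⟩, ?_⟩, fun hP g hg1 hg2 => ?_⟩
  · obtain ⟨p, q, hp, hp', hq, hq', h⟩ := periodic (pairs_of_dual hX) hC
    exact ⟨p, q, hp, hp', hq, hq', fun n hn f hf => h n f hn (algComb_iff.1 hf)⟩
  · constructor
    · intro hC
      refine ⟨3, by omega, fun i => (i : W.K), algComb_iff.2 (mem_of_allSpan (allSpan_pw hC 2) _),
        ?_⟩
      classical
      unfold numValues
      rw [Finset.card_image_of_injective _ Nat.cast_injective]
      have h9 : (2 + 1) * X.dim + 1 ≤ (degrees W (pw X 3)).card :=
        lower (W := W) (pairs_of_dual hX) 2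
      omega
    · rintro ⟨n, hn, f, hf, hval⟩
      by_contra hC
      have h4 := h3 X hX hC n hn
      have h5 := numValues_le (algComb_iff.1 hf)
      omega
  · constructor
    · intro hC Y
      have h4 := h2 Y (hP Y) (hC Y) 1 le_rfl
      rw [one_mul] at h4
      exact (hg1 _).trans h4
    · intro h X
      by_contra hC
      obtain ⟨hd, -⟩ := h3 X (hP X) hC 1 le_rfl
      obtain ⟨N, hN⟩ := (tendsto_atTop.1 hg2 (3 * X.dim)).exists_forall_of_atTop
      have h4 := h (pw X (N + 1))
      rw [pw_dim] at h4
      have h5 := hN ((N + 1) * X.dim) (by nlinarith)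
      have h6 := (h3 X (hP X) hC (N + 1) (by omega)).2
      omega

end Pool.Agent.Results.MP_a60482_ag.BoundedOrAll
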