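import Pool.Agent.Zk74.KC.Occ

/-!
# The Künneth standard conjecture for isotrivial products

`C` is a `ℚ`-linear, idempotent complete, rigid symmetric monoidal category with finite sums and
`End(1) = ℚ` (`UnitQ`), with a realisation `R` in finite dimensional super vector spaces over a
field `K`, which has a grading `Gr` by integers (`Grading`). For the problem `C` is the category of
motives over `k`, for rational or homological equivalence with rational coefficients, and `R` is the
given Weil cohomology. `Kun Gr n M` says that the `n`-th Künneth component of `M` is algebraic.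

The finite group `G` acts on the objects `M` and `N` (`a`, `b`), and `T` is the quotient of `M ⊗ N` by
the diagonal action (`IsQuot`, `diag`). For the problem `M = h(X)` and `N = h(Y)` for smooth projective
varieties `X` and `Y` with an action of `G`, and `T = h((X × Y)/G)`, the motive of the total space
of an isotrivial family over `Y/G` with fibre `X` (if the action on `Y` is free).

Theorem. (1) Suppose that the Künneth components of `N` are algebraic, for example that `Y` is a
curve, a surface or an abelian variety. Then the `n`-th component of `T` is algebraic if and only if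
for all `j` the part of the `(n - j)`-th component of `M` which belongs to the representations which
occur in `H^j(N)` is algebraic (`PartAlg`).

(2) Suppose that for all `j ∈ J` the `(d + j)`-th component of `T` and the `j`-th component of `N` are
algebraic, and let `H` be a subgroup of `G`. If every irreducible rational representation of `G`
with a nonzero vector fixed by `H`, which occurs in `H^d(M)` and in `H^i(M)` for some `i ≠ d`, occurs
in `H^j(N)` for some `j ∈ J`, then the `d`-th component of the quotient of `M` by `H`, for the problem
of `h(X/H)`, is algebraic.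

(3) Suppose that the Künneth components of `N` are algebraic, and that every irreducible rational
representation of `G` which occurs in two different degrees of `H(M)` occurs in `H(N)`. Then the
Künneth components of `T` are algebraic if and only if those of `M` are.

In (3) the condition on the representations holds for all `X` if all irreducible representations
occur in `H(Y)`, for instance (Lefschetz) if `G` acts freely on `Y` and the Euler characteristic of
`Y` is not zero, and if `Y` is a curve and `Y/G` has genus at least two (Chevalley, Weil). So for a
smooth isotrivial family `(X × Y)/G` over a curve of genus at least two the conjecture `C` for the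
total space is equivalent to the conjecture `C` for the fibre.

Proof. The elements `x` of `ℚ[G]` such that `π_d ∘ x` is algebraic on `M` form a two-sided ideal
`I`. Let `f` be an endomorphism of `N` with realisation `π_j`. The partial trace over `N` of the
composition of `∑ a(g) ⊗ b(g)`, of the `(d+j)`-th Künneth component of `T`, extended to `M ⊗ N`, and of
`1 ⊗ f` is algebraic, and it is equal to `∑ tr(b(g) f) a(g) π_d`. So `∑ tr(b(g) f) g` is in `I`. Let
`e` be the central idempotent with `I = (e)`; it is invariant under `g ↦ g⁻¹`. So
`tr(b(1 - e) f) = 0`, where `b(1 - e) f` acts on the realisation as an idempotent of one parity, so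
it is zero: the representations which occur in `H^j(N)` do not occur in `ℚ[G]/I`. The simple modules
of `ℚ[G]/I` occur in `H^d(M)` and in another degree of `H(M)`, because `I` contains the annihilators
of `H^d(M)` and of the sum of the other degrees.
-/

set_option autoImplicit false

open CategoryTheory Limits MonoidalCategory
open Pool.Agent.Y112.SR Pool.Agent.Y112.KD
open Pool.Agent.X252.GA Pool.Agent.Zk74.KG Pool.Agent.Zk74.KC

universe v u w

namespace Pool.Agent.Results.MP_a60482_ag.IsotrivialProducts

/-- The Künneth components of an isotrivial product. -/
theorem result {C : Type u} [Category.{v} C] [Preadditive C] [Linear ℚ C] [MonoidalCategory C]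
    [MonoidalPreadditive C] [MonoidalLinear ℚ C] [SymmetricCategory C] [RightRigidCategory C]
    [IsIdempotentComplete C] [HasBinaryBiproducts C] {K : Type w} [Field K]
    {R : SuperRealisation C K} (Gr : Grading R) (hU : UnitQ C) {G : Type} [Group G] [Fintype G]
    {M N T : C} (a : G →* End M) (b : G →* End N) (hT : IsQuot (diag a b) ⊤ T) :
    ((∀ j, Kun Gr j N) → ∀ n, (Kun Gr n T ↔ ∀ j, PartAlg Gr a b (n - j) j)) ∧
    (∀ (d : ℤ) (J : Set ℤ), (∀ j ∈ J, Kun Gr (d + j) T ∧ Kun Gr j N) → ∀ H : Subgroup G,
      (∀ (V : Type) [AddCommGroup V] [Module ℚ V] (ρ : G →* Module.End ℚ V), Irred ρ →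
        Occurs Gr a {d} ρ → Occurs Gr a {d}ᶜ ρ → (∃ v : V, v ≠ 0 ∧ ∀ h ∈ H, ρ h v = v) →
          Occurs Gr b J ρ) → QKun Gr a H d) ∧
    ((∀ j, Kun Gr j N) →
      (∀ (V : Type) [AddCommGroup V] [Module ℚ V] (ρ : G →* Module.End ℚ V) (d : ℤ), Irred ρ →
        Occurs Gr a {d} ρ → Occurs Gr a {d}ᶜ ρ → Occurs Gr b Set.univ ρ) →
      ((∀ n, Kun Gr n T) ↔ ∀ n, Kun Gr n M)) := by
  refine ⟨fun hN n => ⟨fun h j => ?_, fun h => of_parts Gr a b hT hN h⟩, fun d J hJ H hO =>
    occ_main Gr hU a b hT d J hJ H hO, fun hN hO => ⟨fun h d => ?_, fun h n => ?_⟩⟩
  · refine part_of Gr hU a b hT (d := n - j) (j := j) ?_ (hN j)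
    rwa [sub_add_cancel]
  · rw [← one_mem_jI Gr a d, ← Pool.Agent.Zk74.KG.nA_bot, ← qkun_iff]
    exact occ_main Gr hU a b hT d Set.univ (fun j _ => ⟨h _, hN j⟩) ⊥
      fun V _ _ ρ hρ h1 h2 _ => hO V ρ d hρ h1 h2
  · refine of_parts Gr a b hT hN fun j => (partAlg_iff Gr a b (n - j) j).2 ?_
    exact ⟨1, (one_mem_jI Gr a _).2 (h _), by rw [sub_self]; exact Submodule.zero_mem _⟩

end Pool.Agent.Results.MP_a60482_ag.IsotrivialProducts
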