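import Pool.Agent.Zk50.ZO.Main

/-!
# A zero-one law for the Kunneth standard conjecture

Let `W` be a Weil cohomology theory with coefficient field `K`, on a class of smooth proper varieties
closed under products. A motive (homological equivalence, coefficients in `K`) is pure if its
cohomology lives in one degree. For a variety `Y` let `b(Y) = cohDim W Y` be the dimension of the whole
cohomology and let `c(Y) = pureDim W Y` be the dimension of the largest direct summand of the motive of
`Y` which is a sum of pure motives: the largest number `∑ rank e_m`, where `e_m` is an idempotent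
`K`-combination of correspondences of degree zero which kills `H^i(Y)` for all `i ≠ m`. The standard
conjecture `C(Y)` holds if and only if `c(Y) = b(Y)`.

**Theorem.** If `C(X)` is false, then for all `n ≥ 1`

  `c(X^n) ≤ (b(X) / (2 (n + 1)))^(1/2) b(X^n)`.

So the proportion of the motive of `X^n` made up by pure motives is `1` for all `n`, if `C(X)` is true,
and tends to `0`, if `C(X)` is false. The conjecture `C(X)` is equivalent to the statement that for
some `ε > 0` pure motives make up the proportion `ε` of the motives of infinitely many powers of `X`,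
and the proportion `f(b(X^n))` suffices, if `f(y) (log y)^(1/2) → ∞`. The conjecture `C` for all
varieties is equivalent to the proportion `ε`, or `f(b(Y))`, for each variety `Y`.

The proof. Extend the coefficients to an algebraic closure. Let `A` be the algebra of the algebraic
operators of degree zero on `H(X)`, let `D` be the operator `j` on `H^j(X)`, and let `e` be the
complement of a maximal numerically trivial idempotent of `A`. The supertrace with `D` is a trace on
`A`, so it is `x ↦ str(l x)` on `e A e` for an element `l` of `e A e` which is central up to numerically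
trivial, that is nilpotent, elements. Split `e H(X)` by the degree `j` and the generalised eigenvalue
`μ` of `l`. On `X^n` the element `∑ e ⊗ ⋯ ⊗ l ⊗ ⋯ ⊗ e` has the same property, because partial
supertraces of algebraic operators are algebraic, and there `(j, μ)` is the sum of `n` pairs for `X`.
If `p` is an idempotent pure operator of degree `m`, then `D p = m p`, so that `p` lives in the
eigenvalue `m` of `l`, and its rank is at most the dimension of the part with `j = μ = m`. So
`c(X^n)` is at most the dimension of the part of `(e H(X))^(⊗ n)` with `∑ (j - μ) = 0`. If `j - μ`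
takes two values on `e H(X)`, this is at most the square root above times `b(X)^n`, by the estimate
`binom(k, k / 2)^2 (k + 1) ≤ 4^k` for the central binomial coefficients. If it takes one value, the
projections to the parts of degree `j` of `e H(X)` are algebraic; so `e ≠ 1`, the rank of `e` is at most
`b(X) - 2`, and `c(X^n) ≤ (b(X) - 2)^n`.
-/

set_option autoImplicit false

open CategoryTheory AlgebraicGeometry Filter

universe u v

namespace Pool.Agent.Results.MP_a60482_ag.ZeroOneLaw

open Pool.Agent.H914 VarClass Obj WeilCohomology Pool.Agent.N103.OC Pool.Agent.TH133.PW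
  Pool.Agent.H447 Pool.Agent.N536.HK Pool.Agent.Zk50.ZO

/-- **The zero-one law for the Kunneth standard conjecture.** -/
theorem result {k : Type u} [Field k] {𝒱 : VarClass k} {ops : CycleOps 𝒱}
    (W : WeilCohomology.{u, v} ops) :
    (∀ Y : 𝒱.Obj, IsGreatest (pureRanksOf W Y) (pureDim W Y)) ∧
    (∀ Y : 𝒱.Obj, KunnethC W Y ↔ pureDim W Y = cohDim W Y) ∧
    (∀ X : 𝒱.Obj, ∀ n ≥ 1, cohDim W (pw X n) = cohDim W X ^ n) ∧
    (∀ X : 𝒱.Obj, ¬ KunnethC W X → ∀ n ≥ 1,
      2 * (n + 1) * pureDim W (pw X n) ^ 2 ≤ cohDim W X ^ (2 * n + 1)) ∧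
    (∀ ε : ℝ, 0 < ε → ε ≤ 1 →
      (∀ X : 𝒱.Obj, KunnethC W X ↔ ∀ n₀, ∃ n ≥ n₀, PureShare W ε (pw X n)) ∧
      ((∀ Y : 𝒱.Obj, KunnethC W Y) ↔ ∀ Y : 𝒱.Obj, PureShare W ε Y)) ∧
    (∀ f : ℕ → ℝ, (∀ y, f y ≤ 1) →
      Tendsto (fun y : ℕ => f y * Real.sqrt (Real.log y)) atTop atTop →
      (∀ X : 𝒱.Obj, KunnethC W X ↔
        ∀ n₀, ∃ n ≥ n₀, PureShare W (f (cohDim W (pw X n))) (pw X n)) ∧
      ((∀ Y : 𝒱.Obj, KunnethC W Y) ↔ ∀ Y : 𝒱.Obj, PureShare W (f (cohDim W Y)) Y)) := by
  refine ⟨isGreatest_pure W, fun Y => ⟨pureDim_eq, kunnethC_of_eq⟩, fun X n hn => ?_,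
    fun X hC n hn => ?_, fun ε h0 h1 => zeroOne W (f := fun _ => ε) (fun _ => h1) ?_,
    fun f hf1 hf => zeroOne W hf1 hf⟩
  · obtain ⟨n, rfl⟩ := Nat.exists_eq_add_of_le' hn
    exact cohDim_pw W X n
  · obtain ⟨n, rfl⟩ := Nat.exists_eq_add_of_le' hn
    exact pureDim_bound hC n
  · apply Tendsto.const_mul_atTop h0
    exact Real.tendsto_sqrt_atTop.comp (Real.tendsto_log_atTop.comp tendsto_natCast_atTop_atTop)

end Pool.Agent.Results.MP_a60482_ag.ZeroOneLaw
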